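import Pool.Agent.U527.Rasa.Conv

/-!
# Logarithmic convexity of the functions `S_{n,c}`

With `s = 1 + 2 c x` and `p = -n/c` one has `S_{n,c}(x) = (1/π) g_p(s)`, where
`g_p(s) = ∫_0^π (cos² (φ/2) + s² sin² (φ/2))^p dφ` satisfies
`s (1 - s²) g'' = (2p - (2p-2) s²) g' - 2 p s g`.  The function
`R = s^(1-2p) (1 - s²)² (g g'' - g'²)` vanishes at `s = 1` and
`R' = - s^(-2p) (1 - s²) ((1 - 3 s²) g'² + 4 (p-1) s g g' + 2 p g²)`, whose sign is found from the
inequalities between `g`, `-s g'` and `p g` that follow in the same way from first order identities.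
-/

set_option autoImplicit false

open Real Set

namespace Pool.Agent.Results.MP_6ebaa4_an.LogConvex

/-- The function `S_{n,c}(x)`. -/
noncomputable def S (n c x : ℝ) : ℝ :=
  if c = 0 then (1 / π) * ∫ φ in (0:ℝ)..π, exp (-4 * n * x * sin (φ / 2) ^ 2)
  else (1 / π) * ∫ φ in (0:ℝ)..π, (1 + 4 * c * (x * (1 + c * x)) * sin (φ / 2) ^ 2) ^ (-n / c)

/-- The interval `I_c`: `[0, ∞)` for `c ≥ 0` and `[0, -1/c]` for `c < 0`. -/
noncomputable def I (c : ℝ) : Set ℝ := if 0 ≤ c then Ici 0 else Icc 0 (-1 / c)

/-- For all real `n > 0` and all real `c` such that `-n/c` is a positive integer if `c < 0`, the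
function `S_{n,c}` is positive and its logarithm is convex on `I_c`. -/
theorem result (n c : ℝ) (hn : 0 < n) (hc : c < 0 → ∃ k : ℕ, 0 < k ∧ -n / c = k) :
    (∀ x ∈ I c, 0 < S n c x) ∧ ConvexOn ℝ (I c) (fun x => Real.log (S n c x)) := by
  rcases eq_or_ne c 0 with h0 | h0
  · subst h0
    have hpos : ∀ x : ℝ, 0 < ∫ φ in (0:ℝ)..π, exp (-4 * n * x * sin (φ / 2) ^ 2) := fun x =>
      intervalIntegral.intervalIntegral_pos_of_pos
        ((by fun_prop : Continuous _).intervalIntegrable _ _) (fun φ => exp_pos _) pi_pos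
    have hI : I 0 = Ici 0 := by simp [I]
    refine ⟨fun x _ => ?_, ?_⟩
    · unfold S
      rw [if_pos rfl]
      exact mul_pos (by positivity) (hpos x)
    · rw [hI]
      have h := (Pool.Agent.U527.Rasa.convex_exp hn).add_const (Real.log (1 / π))
      refine h.congr fun x _ => ?_
      simp only [S, if_pos]
      rw [Real.log_mul (by positivity) (hpos x).ne', add_comm]
      rfl
  · set p := -n / c with hp
    have hS : ∀ x, S n c x = (1 / π) * Pool.Agent.U527.Rasa.g p (1 + 2 * c * x) := by
      intro x
      unfold S Pool.Agent.U527.Rasa.g Pool.Agent.U527.Rasa.W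
      rw [if_neg h0]
      congr 2
      funext φ
      congr 1
      have := sin_sq_add_cos_sq (φ / 2)
      have h2 : cos (φ / 2) ^ 2 = 1 - sin (φ / 2) ^ 2 := by linarith
      rw [h2]
      ring
    have main : ∀ D : Set ℝ, (∀ s ∈ D, 0 < Pool.Agent.U527.Rasa.g p s) →
        ConvexOn ℝ D (fun s => Real.log (Pool.Agent.U527.Rasa.g p s)) →
        Convex ℝ (I c) → (∀ x ∈ I c, 1 + 2 * c * x ∈ D) →
        (∀ x ∈ I c, 0 < S n c x) ∧ ConvexOn ℝ (I c) (fun x => Real.log (S n c x)) := by
      intro D hD1 hD2 hIc hID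
      refine ⟨fun x hx => ?_, hIc, ?_⟩
      · rw [hS]
        exact mul_pos (by positivity) (hD1 _ (hID x hx))
      · intro x hx y hy a b ha hb hab
        have hz := hIc hx hy ha hb hab
        have e1 : ∀ x ∈ I c, Real.log (S n c x) = Real.log (1 / π) +
            Real.log (Pool.Agent.U527.Rasa.g p (1 + 2 * c * x)) := by
          intro x hx
          rw [hS, Real.log_mul (by positivity) (hD1 _ (hID x hx)).ne']
        have h := hD2.2 (hID x hx) (hID y hy) ha hb hab
        simp only
        rw [e1 _ hz, e1 _ hx, e1 _ hy]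
        have e2 : 1 + 2 * c * (a • x + b • y) =
            a • (1 + 2 * c * x) + b • (1 + 2 * c * y) := by
          simp only [smul_eq_mul]
          have : b = 1 - a := by linarith
          subst this
          ring
        rw [e2]
        simp only [smul_eq_mul] at *
        have : a * Real.log (1 / π) + b * Real.log (1 / π) = Real.log (1 / π) := by
          rw [← add_mul, hab, one_mul]
        linarith
    rcases lt_or_gt_of_ne h0 with hneg | hpos
    · obtain ⟨k, hk0, hk⟩ := hc hneg
      have hp1 : 1 ≤ p := by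
        rw [hk]
        exact_mod_cast hk0
      have hI : I c = Icc 0 (-1 / c) := by simp [I, not_le.2 hneg]
      refine main (Icc (-1) 1) (fun s _ => Pool.Agent.U527.Rasa.g_pos_of_nonneg (by linarith) s)
        (Pool.Agent.U527.Rasa.convex_left hp1) (by rw [hI]; exact convex_Icc _ _) ?_
      intro x hx
      rw [hI] at hx
      have h1 : x * (-c) ≤ 1 := by
        have := hx.2
        rw [show -1 / c = 1 / (-c) by rw [neg_div, div_neg], le_div_iff₀ (by linarith)] at this
        exact this
      have h2 := hx.1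
      constructor <;> nlinarith
    · have hp1 : p < 0 := by
        rw [hp]
        exact div_neg_of_neg_of_pos (by linarith) hpos
      have hI : I c = Ici 0 := by simp [I, hpos.le]
      refine main (Ici 1) (fun s hs => Pool.Agent.U527.Rasa.g_pos_of_pos p
        (lt_of_lt_of_le one_pos hs)) (Pool.Agent.U527.Rasa.convex_right hp1)
        (by rw [hI]; exact convex_Ici _) ?_
      intro x hx
      rw [hI] at hx
      have h2 : (0:ℝ) ≤ x := hx
      show (1:ℝ) ≤ 1 + 2 * c * x
      have : 0 ≤ 2 * c * x := by positivity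
      linarith

end Pool.Agent.Results.MP_6ebaa4_an.LogConvex
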